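import Pool.Agent.P.MP_b3bbc0_lc.Bwd

open Pool.Agent.P.MP_b3bbc0_lc

/-- The extended profile of a random edge of the line-point incidence graph is, up to an error
linear in `d`, the set of vectors `target n a b e g` with feasible parameters; this set does not
depend on the edge. -/
theorem Pool.Agent.Results.MP_b3bbc0_lc.Description.result
    (D : List Bool →. ℕ) (hD : IsOptimal D) :
    ∃ κ : ℕ, ∀ (n d : ℕ) (F : Type) [Field F] [Fintype F] [Encodable F]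
      (L : List (F × F × F × F)), (∀ t, t ∈ L ↔ ∃ a b, t = (a, b, a + b, a * b)) →
      C D L ≤ d → Fintype.card F ≤ 2 ^ (n + d) → n ≤ 2 ^ d →
      ∀ (ℓ : (F × F) ⊕ F) (p : F × F), Incident ℓ p → 3 * n ≤ C D (ℓ, p) + d →
        (∀ q : List Bool, C D q ≤ 2 ^ d → ∃ a b e g : ℕ, Feasible F n a b e g ∧ g ≤ 3 * 2 ^ d ∧
          ∀ i : Fin 7, |(profile D ℓ p q i : ℤ) - target n a b e g i| ≤ κ * (d + 1)) ∧
        (∀ a b e g : ℕ, Feasible F n a b e g → g ≤ 3 * 2 ^ d → ∃ q : List Bool,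
          ∀ i : Fin 7, |(profile D ℓ p q i : ℤ) - target n a b e g i| ≤ κ * (d + 1)) :=
  description D hD

/-- The posed instance: two random edges have the same extended profile. -/
theorem Pool.Agent.Results.MP_b3bbc0_lc.Description.posed
    (D : List Bool →. ℕ) (hD : IsOptimal D) :
    ∃ κ : ℕ, ∀ (n d : ℕ) (F : Type) [Field F] [Fintype F] [Encodable F]
      (L : List (F × F × F × F)), (∀ t, t ∈ L ↔ ∃ a b, t = (a, b, a + b, a * b)) →
      C D L ≤ d → Fintype.card F ≤ 2 ^ (n + d) → n ≤ 2 ^ d →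
      ∀ (ℓ ℓ' : (F × F) ⊕ F) (p p' : F × F), Incident ℓ p → Incident ℓ' p' →
        3 * n ≤ C D (ℓ, p) + d → 3 * n ≤ C D (ℓ', p') + d →
        ∀ q : List Bool, C D q ≤ 2 ^ d → ∃ q' : List Bool, ∀ i : Fin 7,
          |(profile D ℓ p q i : ℤ) - profile D ℓ' p' q' i| ≤ κ * (d + 1) := by
  obtain ⟨κ, h⟩ := Pool.Agent.Results.MP_b3bbc0_lc.Description.result D hD
  refine ⟨2 * κ, fun n d F _ _ _ L hL h1 h2 h3 ℓ ℓ' p p' i1 i2 c1 c2 q hq => ?_⟩
  obtain ⟨a, b, e, g, hf, hg, t1⟩ := (h n d F L hL h1 h2 h3 ℓ p i1 c1).1 q hq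
  obtain ⟨q', t2⟩ := (h n d F L hL h1 h2 h3 ℓ' p' i2 c2).2 a b e g hf hg
  refine ⟨q', fun i => ?_⟩
  have u1 := abs_le.1 (t1 i)
  have u2 := abs_le.1 (t2 i)
  push_cast
  exact abs_le.2 ⟨by linarith [u1.1, u2.2], by linarith [u1.2, u2.1]⟩
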