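import Pool.Agent.P.MP_b3bbc0_lc.Long

open Pool.Agent.P.MP_b3bbc0_lc

/-- With no bound on the complexity of `q`, random edges can have extended profiles that differ
by at least `n`. -/
theorem Pool.Agent.Results.MP_b3bbc0_lc.LongStrings.result
    (D : List Bool →. ℕ) (hD : IsOptimal D) :
    ∃ c n₀ : ℕ, ∀ n ≥ n₀, ∃ (F : Type) (_ : Field F) (_ : Fintype F) (_ : Encodable F)
      (L : List (F × F × F × F)), (∀ t, t ∈ L ↔ ∃ a b, t = (a, b, a + b, a * b)) ∧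
      C D L ≤ c * Nat.log 2 n ∧ 2 ^ n ≤ Fintype.card F ∧ Fintype.card F ≤ 2 ^ (n + 1) ∧
      ∃ (ℓ ℓ' : (F × F) ⊕ F) (p p' : F × F), Incident ℓ p ∧ Incident ℓ' p' ∧
        3 * n ≤ C D (ℓ, p) + c * Nat.log 2 n ∧ 3 * n ≤ C D (ℓ', p') + c * Nat.log 2 n ∧
        ∃ q : List Bool, ∀ q' : List Bool, ∃ i : Fin 7,
          (n : ℤ) ≤ |(profile D ℓ p q i : ℤ) - profile D ℓ' p' q' i| :=
  long D hD
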